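import Mathlib

set_option autoImplicit false

namespace Pool.Agent.Results.MP_18d2fb_an.NeumannDiverges

noncomputable section

open Filter Topology BoundedContinuousFunction
open scoped Nat

/-- `E` is a space of type (B₀) (a Fréchet space) over `𝕜`: its topology is Hausdorff, complete and
given by an increasing sequence of seminorms. -/
structure IsB0 (𝕜 E : Type) [RCLike 𝕜] [AddCommGroup E] [Module 𝕜 E] [UniformSpace E] : Prop where
  uniform : IsUniformAddGroup E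
  complete : CompleteSpace E
  hausdorff : T2Space E
  seminorms : ∃ p : ℕ → Seminorm 𝕜 E, Monotone p ∧ WithSeminorms p

section general

variable {𝕜 : Type} [RCLike 𝕜] {X : Type} [NormedAddCommGroup X] [NormedSpace 𝕜 X]
  [CompleteSpace X] (V : X →L[𝕜] X)

lemma summ (hV : ∀ k, ‖V ^ k‖ ≤ 1 / (k ! : ℝ)) (c : 𝕜) : Summable (fun k : ℕ => (c • V) ^ k) := by
  refine Summable.of_norm_bounded (g := fun k => ‖c‖ ^ k / (k ! : ℝ))
    (Real.summable_pow_div_factorial ‖c‖) ?_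
  intro k
  rw [smul_pow]
  calc ‖c ^ k • V ^ k‖ ≤ ‖c ^ k‖ * ‖V ^ k‖ := ContinuousLinearMap.opNorm_smul_le _ _
    _ ≤ ‖c‖ ^ k * (1 / (k ! : ℝ)) := by
        rw [norm_pow]
        exact mul_le_mul_of_nonneg_left (hV k) (by positivity)
    _ = _ := by ring

/-- the sum of the geometric series of `c V` -/
def S (c : 𝕜) : X →L[𝕜] X := ∑' k : ℕ, (c • V) ^ k

lemma S_left (hV : ∀ k, ‖V ^ k‖ ≤ 1 / (k ! : ℝ)) (c : 𝕜) : S V c * (1 - c • V) = 1 :=
  (summ V hV c).tsum_pow_mul_one_sub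

lemma S_right (hV : ∀ k, ‖V ^ k‖ ≤ 1 / (k ! : ℝ)) (c : 𝕜) : (1 - c • V) * S V c = 1 :=
  (summ V hV c).one_sub_mul_tsum_pow

lemma S_comm (hV : ∀ k, ‖V ^ k‖ ≤ 1 / (k ! : ℝ)) (c : 𝕜) : S V c * V = V * S V c := by
  have h : (1 - c • V) * V = V * (1 - c • V) := by
    rw [sub_mul, mul_sub, one_mul, mul_one, smul_mul_assoc, mul_smul_comm]
  calc S V c * V = S V c * V * ((1 - c • V) * S V c) := by rw [S_right V hV, mul_one]
    _ = S V c * (V * (1 - c • V)) * S V c := by simp only [mul_assoc]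
    _ = S V c * ((1 - c • V) * V) * S V c := by rw [h]
    _ = (S V c * (1 - c • V)) * V * S V c := by simp only [mul_assoc]
    _ = V * S V c := by rw [S_left V hV, one_mul]

/-- the space: sequences `(f_k)` in `X` with `f_k = V f_{k+1}`, with the product topology -/
def E : Submodule 𝕜 (ℕ → X) where
  carrier := {f | ∀ k, f k = V (f (k + 1))}
  add_mem' := by
    intro f g hf hg k
    show f k + g k = V (f (k + 1) + g (k + 1))
    rw [map_add, ← hf k, ← hg k]
  zero_mem' := by intro k; simp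
  smul_mem' := by
    intro c f hf k
    show c • f k = V (c • f (k + 1))
    rw [map_smul, ← hf k]

lemma E_closed : IsClosed ((E V : Submodule 𝕜 (ℕ → X)) : Set (ℕ → X)) := by
  have : ((E V : Submodule 𝕜 (ℕ → X)) : Set (ℕ → X)) =
      ⋂ k, {f : ℕ → X | f k = V (f (k + 1))} := by
    ext f; simp [E]
  rw [this]
  exact isClosed_iInter fun k => isClosed_eq (continuous_apply k)
    (V.continuous.comp (continuous_apply (k + 1)))

/-- the seminorms `∑_{k ≤ n} ‖f_k‖` -/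
def p (n : ℕ) : Seminorm 𝕜 (E V) :=
  Seminorm.of (fun f => ∑ k ∈ Finset.range (n + 1), ‖f.1 k‖)
    (by
      intro f g
      rw [← Finset.sum_add_distrib]
      exact Finset.sum_le_sum fun k _ => norm_add_le _ _)
    (by
      intro c f
      rw [Finset.mul_sum]
      refine Finset.sum_congr rfl fun k _ => ?_
      show ‖c • f.1 k‖ = _
      rw [norm_smul])

lemma p_apply (n : ℕ) (f : E V) : p V n f = ∑ k ∈ Finset.range (n + 1), ‖f.1 k‖ := rfl

lemma p_mono : Monotone (p V) := by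
  intro m n hmn f
  show p V m f ≤ p V n f
  rw [p_apply, p_apply]
  exact Finset.sum_le_sum_of_subset_of_nonneg
    (Finset.range_mono (by omega)) (fun _ _ _ => norm_nonneg _)

lemma E_unif : IsUniformAddGroup (E V) := (E V).toAddSubgroup.isUniformAddGroup

lemma p_with : WithSeminorms (p V) := by
  have := E_unif V
  rw [SeminormFamily.withSeminorms_iff_nhds_eq_iInf]
  apply le_antisymm
  · refine le_iInf fun n => ?_
    rw [← tendsto_iff_comap]
    have hc : Continuous (fun f : E V => ∑ k ∈ Finset.range (n + 1), ‖f.1 k‖) := by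
      refine continuous_finsetSum _ fun k _ => ?_
      exact ((continuous_apply k).comp continuous_subtype_val).norm
    have := hc.tendsto 0
    have h0 : ∑ k ∈ Finset.range (n + 1), ‖(0 : E V).1 k‖ = 0 := by simp
    rw [h0] at this
    exact this
  · have h0 : 𝓝 (0 : E V) = ⨅ k, comap (fun f : E V => f.1 k) (𝓝 (0 : X)) := by
      rw [nhds_subtype_eq_comap, nhds_pi, Filter.pi, comap_iInf]
      congr 1
      ext1 k
      rw [comap_comap]
      rfl
    rw [h0]
    refine le_iInf fun k => ?_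
    refine (iInf_le _ k).trans ?_
    rw [← tendsto_iff_comap]
    refine squeeze_zero_norm (a := fun f : E V => p V k f) ?_ tendsto_comap
    intro f
    rw [p_apply]
    exact Finset.single_le_sum (f := fun k => ‖f.1 k‖) (fun _ _ => norm_nonneg _)
      (Finset.self_mem_range_succ k)

lemma E_B0 : IsB0 𝕜 (E V) where
  uniform := E_unif V
  complete := (E_closed V).isComplete.completeSpace_coe
  hausdorff := inferInstance
  seminorms := ⟨p V, p_mono V, p_with V⟩

/-- the operator `(U f)_k = f_{k+1}` -/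
def U : E V →L[𝕜] E V where
  toFun f := ⟨fun k => f.1 (k + 1), fun k => f.2 (k + 1)⟩
  map_add' f g := rfl
  map_smul' c f := rfl
  cont := by
    refine Continuous.subtype_mk (continuous_pi fun k => ?_) _
    exact (continuous_apply (k + 1)).comp continuous_subtype_val

lemma U_apply (f : E V) (k : ℕ) : (U V f).1 k = f.1 (k + 1) := rfl

lemma Upow_apply (j : ℕ) : ∀ (f : E V) (k : ℕ), ((U V ^ j) f).1 k = f.1 (k + j) := by
  induction j with
  | zero => intro f k; simp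
  | succ j ih =>
    intro f k
    rw [pow_succ']
    show (U V ((U V ^ j) f)).1 k = _
    rw [U_apply, ih, show k + 1 + j = k + (j + 1) by ring]

/-- the inverse of `I - l U` for `l ≠ 0` -/
def R (hV : ∀ k, ‖V ^ k‖ ≤ 1 / (k ! : ℝ)) (l : 𝕜) (f : E V) : E V :=
  ⟨fun k => -(l⁻¹ • S V l⁻¹ (V (f.1 k))), by
    intro k
    rw [map_neg, map_smul]
    have h := congrArg (fun T : X →L[𝕜] X => T (V (f.1 (k + 1)))) (S_comm V hV l⁻¹)
    have h' : S V l⁻¹ (V (V (f.1 (k + 1)))) = V (S V l⁻¹ (V (f.1 (k + 1)))) := h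
    rw [← h', ← f.2 k]⟩

lemma bij (hV : ∀ k, ‖V ^ k‖ ≤ 1 / (k ! : ℝ)) (l : 𝕜) :
    Function.Bijective (fun f : E V => f - l • U V f) := by
  by_cases hl : l = 0
  · subst hl
    have : (fun f : E V => f - (0 : 𝕜) • U V f) = id := by funext f; simp
    rw [this]
    exact Function.bijective_id
  · have hS1 : ∀ g : X, S V l⁻¹ g - l⁻¹ • S V l⁻¹ (V g) = g := by
      intro g
      have h := congrArg (fun T : X →L[𝕜] X => T g) (S_left V hV l⁻¹)
      have h' : S V l⁻¹ (g - l⁻¹ • V g) = g := h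
      rwa [map_sub, map_smul] at h'
    refine Function.bijective_iff_has_inverse.2 ⟨R V hV l, ?_, ?_⟩
    · intro f
      apply Subtype.ext
      funext k
      show -(l⁻¹ • S V l⁻¹ (V (f.1 k - l • f.1 (k + 1)))) = f.1 k
      have h1 := hS1 (f.1 k)
      have h2 : V (f.1 k - l • f.1 (k + 1)) = V (f.1 k) - l • f.1 k := by
        rw [map_sub, map_smul, ← f.2 k]
      rw [h2, map_sub, map_smul, smul_sub, smul_smul, inv_mul_cancel₀ hl, one_smul, neg_sub]
      exact h1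
    · intro f
      apply Subtype.ext
      funext k
      show -(l⁻¹ • S V l⁻¹ (V (f.1 k))) - l • -(l⁻¹ • S V l⁻¹ (V (f.1 (k + 1)))) = f.1 k
      have h1 := hS1 (f.1 k)
      rw [← f.2 k, smul_neg, smul_smul, mul_inv_cancel₀ hl, one_smul, sub_neg_eq_add, add_comm,
        ← sub_eq_add_neg]
      exact h1

end general

variable (𝕜 : Type) [RCLike 𝕜]

lemma Vbound (f : ℕ →ᵇ 𝕜) (n : ℕ) : ‖f (n + 1) / ((n : 𝕜) + 1)‖ ≤ ‖f‖ := by
  rw [norm_div]
  have h1 : (1 : ℝ) ≤ ‖(n : 𝕜) + 1‖ := by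
    have : ‖(n : 𝕜) + 1‖ = (n : ℝ) + 1 := by
      have : ((n : 𝕜) + 1) = ((n + 1 : ℕ) : 𝕜) := by push_cast; ring
      rw [this, RCLike.norm_natCast]; push_cast; ring
    rw [this]
    have : (0 : ℝ) ≤ n := Nat.cast_nonneg n
    linarith
  exact (div_le_self (norm_nonneg _) h1).trans (f.norm_coe_le_norm _)

/-- the weighted left shift `(V f)(n) = f(n+1)/(n+1)` as a function -/
def Vfun (f : ℕ →ᵇ 𝕜) : ℕ →ᵇ 𝕜 :=
  BoundedContinuousFunction.ofNormedAddCommGroupDiscrete (fun n => f (n + 1) / ((n : 𝕜) + 1)) ‖f‖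
    (Vbound 𝕜 f)

lemma Vfun_apply (f : ℕ →ᵇ 𝕜) (n : ℕ) : Vfun 𝕜 f n = f (n + 1) / ((n : 𝕜) + 1) := rfl

lemma Vfun_norm (f : ℕ →ᵇ 𝕜) : ‖Vfun 𝕜 f‖ ≤ ‖f‖ :=
  (BoundedContinuousFunction.norm_le (norm_nonneg _)).2 fun n => Vbound 𝕜 f n

/-- the weighted left shift -/
def V0 : (ℕ →ᵇ 𝕜) →L[𝕜] (ℕ →ᵇ 𝕜) :=
  LinearMap.mkContinuous
    { toFun := Vfun 𝕜
      map_add' := by
        intro f g; ext n
        simp only [Vfun_apply, BoundedContinuousFunction.coe_add, Pi.add_apply]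
        ring
      map_smul' := by
        intro c f; ext n
        simp only [Vfun_apply, BoundedContinuousFunction.coe_smul, RingHom.id_apply, smul_eq_mul]
        ring } 1 (by
      intro f
      rw [one_mul]
      exact Vfun_norm 𝕜 f)

lemma V_apply (f : ℕ →ᵇ 𝕜) (n : ℕ) : V0 𝕜 f n = f (n + 1) / ((n : 𝕜) + 1) := rfl

lemma Vpow_apply (k : ℕ) : ∀ (f : ℕ →ᵇ 𝕜) (n : ℕ),
    (V0 𝕜 ^ k) f n = f (n + k) * ((n ! : 𝕜) / ((n + k)! : 𝕜)) := by
  induction k with
  | zero =>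
    intro f n
    have : (n ! : 𝕜) ≠ 0 := by exact_mod_cast n.factorial_ne_zero
    simp [this]
  | succ k ih =>
    intro f n
    rw [pow_succ']
    show V0 𝕜 ((V0 𝕜 ^ k) f) n = _
    rw [V_apply, ih]
    have e : n + 1 + k = n + (k + 1) := by ring
    rw [e]
    have h1 : ((n + 1)! : 𝕜) = ((n : 𝕜) + 1) * (n ! : 𝕜) := by
      rw [Nat.factorial_succ]; push_cast; ring
    have h2 : ((n : 𝕜) + 1) ≠ 0 := by exact_mod_cast n.succ_ne_zero
    rw [h1]
    field_simp

lemma Vpow_norm (k : ℕ) : ‖V0 𝕜 ^ k‖ ≤ 1 / (k ! : ℝ) := by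
  have hk : (0 : ℝ) < k ! := by exact_mod_cast k.factorial_pos
  refine ContinuousLinearMap.opNorm_le_bound _ (by positivity) ?_
  intro f
  refine (BoundedContinuousFunction.norm_le (by positivity)).2 ?_
  intro n
  rw [Vpow_apply, norm_mul, norm_div, RCLike.norm_natCast, RCLike.norm_natCast]
  have h1 : (n ! : ℝ) / ((n + k)! : ℝ) ≤ 1 / k ! := by
    have hnk : (0 : ℝ) < (n + k)! := by exact_mod_cast (n + k).factorial_pos
    rw [div_le_div_iff₀ hnk hk, one_mul]
    exact_mod_cast Nat.le_of_dvd (Nat.factorial_pos _) (Nat.factorial_mul_factorial_dvd_factorial_add n k)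
  calc ‖f (n + k)‖ * ((n ! : ℝ) / ((n + k)! : ℝ)) ≤ ‖f‖ * (1 / k !) :=
        mul_le_mul (f.norm_coe_le_norm _) h1 (by positivity) (norm_nonneg _)
    _ = 1 / k ! * ‖f‖ := mul_comm _ _

/-- the vector `x_k = k! e_k` -/
def x0 : E (V0 𝕜) :=
  ⟨fun k => BoundedContinuousFunction.ofNormedAddCommGroupDiscrete
      (fun n => if n = k then (k ! : 𝕜) else 0) (k !) (by
        intro n
        by_cases h : n = k
        · simp [h]
        · simp [h]), by
    intro k
    ext n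
    show (if n = k then (k ! : 𝕜) else 0) = (if n + 1 = k + 1 then ((k + 1)! : 𝕜) else 0) / ((n : 𝕜) + 1)
    by_cases h : n = k
    · subst h
      have h2 : ((n : 𝕜) + 1) ≠ 0 := by exact_mod_cast n.succ_ne_zero
      rw [if_pos rfl, if_pos rfl, Nat.factorial_succ]
      push_cast
      field_simp
    · rw [if_neg h, if_neg (by omega), zero_div]⟩

lemma x0_norm (k : ℕ) : (k ! : ℝ) ≤ ‖(x0 𝕜).1 k‖ := by
  have h := BoundedContinuousFunction.norm_coe_le_norm ((x0 𝕜).1 k) k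
  have e : ((x0 𝕜).1 k) k = (k ! : 𝕜) := by
    show (if k = k then (k ! : 𝕜) else 0) = _
    rw [if_pos rfl]
  rw [e, RCLike.norm_natCast] at h
  exact h

/-- There are a space `F` of type (B₀) over `𝕜` (`ℝ` or `ℂ`), a continuous linear map `T` of `F` into
itself and a vector `x` such that `I - l T` is a bijection for every scalar `l`, while the Neumann
series `∑ l^k T^k x` diverges for every scalar `l ≠ 0`. -/
theorem result (𝕜 : Type) [RCLike 𝕜] :
    ∃ (F : Type) (_ : AddCommGroup F) (_ : Module 𝕜 F) (_ : UniformSpace F) (_ : IsB0 𝕜 F)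
      (T : F →L[𝕜] F) (x : F),
      (∀ l : 𝕜, Function.Bijective (fun f : F => f - l • T f)) ∧
      ∀ l : 𝕜, l ≠ 0 → ¬ ∃ s : F,
        Tendsto (fun n : ℕ => ∑ k ∈ Finset.range n, l ^ k • (T ^ k) x) atTop (𝓝 s) := by
  refine ⟨E (V0 𝕜), inferInstance, inferInstance, inferInstance, E_B0 (V0 𝕜), U (V0 𝕜), x0 𝕜,
    bij (V0 𝕜) (Vpow_norm 𝕜), ?_⟩
  rintro l hl ⟨s, hs⟩
  -- the zeroth coordinates of the terms tend to zero
  have h1 : Tendsto (fun n : ℕ => ∑ k ∈ Finset.range (n + 1), l ^ k • (U (V0 𝕜) ^ k) (x0 𝕜)) atTop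
      (𝓝 s) := hs.comp (tendsto_add_atTop_nat 1)
  have h2 : Tendsto (fun n : ℕ => l ^ n • (U (V0 𝕜) ^ n) (x0 𝕜)) atTop (𝓝 0) := by
    have := h1.sub hs
    simpa [Finset.sum_range_succ] using this
  have h3 : Tendsto (fun n : ℕ => ‖(l ^ n • (U (V0 𝕜) ^ n) (x0 𝕜)).1 0‖) atTop (𝓝 0) := by
    have hc : Continuous (fun f : E (V0 𝕜) => ‖f.1 0‖) :=
      ((continuous_apply 0).comp continuous_subtype_val).norm
    have h := (hc.tendsto 0).comp h2
    have e : ‖(0 : E (V0 𝕜)).1 0‖ = 0 := by simp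
    rw [e] at h
    exact h
  have h4 : ∀ n : ℕ, ‖l‖ ^ n * (n ! : ℝ) ≤ ‖(l ^ n • (U (V0 𝕜) ^ n) (x0 𝕜)).1 0‖ := by
    intro n
    show _ ≤ ‖l ^ n • ((U (V0 𝕜) ^ n) (x0 𝕜)).1 0‖
    rw [Upow_apply, norm_smul, norm_pow, zero_add]
    exact mul_le_mul_of_nonneg_left (x0_norm 𝕜 n) (by positivity)
  have h5 : Tendsto (fun n : ℕ => ‖l‖ ^ n * (n ! : ℝ)) atTop (𝓝 0) :=
    squeeze_zero (fun n => by positivity) h4 h3
  have h6 : Tendsto (fun n : ℕ => (‖l‖⁻¹) ^ n / (n ! : ℝ)) atTop (𝓝 0) :=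
    FloorSemiring.tendsto_pow_div_factorial_atTop _
  have h7 := h5.mul h6
  have h8 : (fun n : ℕ => ‖l‖ ^ n * (n ! : ℝ) * ((‖l‖⁻¹) ^ n / (n ! : ℝ))) = fun _ => (1 : ℝ) := by
    funext n
    have hl' : ‖l‖ ≠ 0 := norm_ne_zero_iff.2 hl
    have hn : (n ! : ℝ) ≠ 0 := by exact_mod_cast n.factorial_ne_zero
    rw [inv_pow]
    field_simp
  rw [h8, mul_zero] at h7
  have := tendsto_nhds_unique h7 tendsto_const_nhds
  norm_num at this

end

end Pool.Agent.Results.MP_18d2fb_an.NeumannDiverges
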